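import Pool.Agent.H97.PRP.Targets

/-!
# MP_e37c09_lc, row DDC: the ordinal definable set of the possible values captures the sections
-/

set_option autoImplicit false

open Ordinal Cardinal Order Set
open scoped ZFSet

universe u

namespace Pool.Agent.H96.PRP

open _root_.HD HD.PRK HD.PRP

theorem clb_lim {K : Cardinal.{u}} (hK : ℵ₀ < K) : Clb K.ord {b : Ordinal.{u} | IsSuccLimit b} := by
  constructor
  · intro a ha
    have hω : ω < K.ord := by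
      rw [← ord_aleph0]
      exact ord_lt_ord.2 hK
    refine ⟨a + ω, Ordinal.isPrincipal_add_ord hK.le ha hω, ?_, ?_⟩
    · exact lt_add_of_pos_right a omega0_pos
    · exact isSuccLimit_add a isSuccLimit_omega0
  · intro x _ hx0 h
    rw [Set.mem_ofPred_eq, Ordinal.isSuccLimit_iff]
    refine ⟨hx0.ne', ?_⟩
    rw [isSuccPrelimit_iff_succ_lt]
    intro a ha
    obtain ⟨z, hz, haz, _⟩ := h a ha
    exact (succ_le_of_lt haz).trans_lt hz

theorem od_fs (h3 : T_FS.{u}) (κ : Ordinal.{u}) {G s : ZFSet.{u}} (hG : OD G) (hs : OD s) :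
    OD (Fs κ G s) := by
  have a1 : DZ.{u} fun v => v 1 = Fs κ G (v 0) :=
    (h3 κ G hG).ren fun n => if n = 0 then 1 else 0
  exact OD.of_dz (DZ.od (R := fun b v => v 0 = Fs κ G b) hs a1)

/-- DDC. Capturing. -/
theorem pf_DDC (h0 : HD.PRK.T_NU2.{u}) (h1 : HD.PRK.T_L3A.{u}) (h2 : HD.PRK.T_TWO.{u})
    (h3 : T_FS.{u}) (h4 : HD.PRP.T_FC.{u}) (h5 : T_FO.{u}) : T_DDC.{u} := by
  intro δ hδ hA K hK hδK μ hμ hωμ G hG
  obtain ⟨η, -, θ, j, hj⟩ := HD.All.xa δ hδ 0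
  obtain ⟨D, rfl, hDr, hDs, hD0⟩ := HD.All.xb δ η θ j hj
  have hDK : D < K := Cardinal.ord_lt_ord.1 hδK
  have hK0 : ℵ₀ < K := hD0.trans hDK
  obtain ⟨cs, -, hcs⟩ := h4
  obtain ⟨C₀, hC₀, hfin⟩ := hcs K hK hK0
  -- the club sets for the finite sets
  have hex : ∀ σ : Ordinal.{u}, ∃ C, Clb K.ord C ∧ (OD (cs σ) → ∀ y, SmS μ K.ord C y → ∀ n,
      (∀ a : Ordinal.{u}, a.toZFSet ∈ y → n < a) → n < K.ord →
        PosX μ K.ord fun x' => Agr (Fs K.ord G (cs σ)) x' n (sec (Fs K.ord G (cs σ)) y)) := by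
    intro σ
    by_cases hσ : OD (cs σ)
    · have hF : OD (Fs K.ord G (cs σ)) := od_fs h3 K.ord hG hσ
      have hFew := h2 D.ord hδ hA K hK hδK μ hμ hωμ _ hF
      obtain ⟨C, hC, hCP⟩ := h0 μ K hK hK0
        (fun n x => ¬ PosX μ K.ord fun x' =>
          Agr (Fs K.ord G (cs σ)) x' n (sec (Fs K.ord G (cs σ)) x))
        (fun n hn => h1 D K hDr hDs hD0 hK hDK μ _ hFew n hn)
      exact ⟨C, hC, fun _ y hy n hn _ => not_not.1 (hCP y hy n hn)⟩
    · exact ⟨_, clb_lim hK0, fun h => absurd h hσ⟩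
  choose C hC hCx using hex
  have hdiag := Pool.Agent.H33.HD.VD.diag hK hK0 C fun a _ => hC a
  refine ⟨({b : Ordinal.{u} | IsSuccLimit b} ∩ C₀) ∩ {x | 0 < x ∧ ∀ a < x, x ∈ C a},
    Pool.Agent.H54.CL.clb_inter hK0 hK (Pool.Agent.H54.CL.clb_inter hK0 hK (clb_lim hK0) hC₀)
      hdiag, ?_⟩
  intro x hx a hax hafin
  obtain ⟨a', ha, haC, haμ, haa⟩ := hx.mem _ hax
  have haeq : a = a' := toZFSet_injective haa
  subst haeq
  have hlim : IsSuccLimit a := haC.1.1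
  have haC₀ : a ∈ C₀ := haC.1.2
  -- the finite part
  have hsa : x ∩ a.toZFSet ⊆ a.toZFSet := fun z hz => (ZFSet.mem_inter.1 hz).2
  have hsfin : {b : Ordinal.{u} | b.toZFSet ∈ x ∩ a.toZFSet}.Finite := by
    refine hafin.subset fun b hb => ?_
    have hb' : b.toZFSet ∈ x ∩ a.toZFSet := hb
    rw [ZFSet.mem_inter] at hb'
    exact ⟨hb'.1, toZFSet_mem_toZFSet_iff.1 hb'.2⟩
  obtain ⟨σ, hσa, hσ⟩ := hfin a haC₀ ha _ hsa hsfin
  have hsOD : OD (cs σ) := by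
    rw [hσ]
    exact h5 a _ hsa hsfin
  -- the rest
  obtain ⟨y, hy⟩ : ∃ y : ZFSet.{u}, y = ZFSet.sep (fun z => z ∉ a.toZFSet) x := ⟨_, rfl⟩
  have hymem : ∀ z, z ∈ y ↔ z ∈ x ∧ z ∉ a.toZFSet := fun z => by rw [hy, ZFSet.mem_sep]
  have hya : ∀ b : Ordinal.{u}, b.toZFSet ∈ y → a ≤ b := by
    intro b hb
    refine not_lt.1 fun h => ((hymem _).1 hb).2 (toZFSet_mem_toZFSet_iff.2 h)
  have hysm : SmS μ K.ord (C σ) y := by
    refine ⟨⟨a.toZFSet, (hymem _).2 ⟨hax, fun h => ?_⟩⟩, fun z hz => ?_, ?_⟩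
    · exact lt_irrefl a (toZFSet_mem_toZFSet_iff.1 h)
    · obtain ⟨b, hb, hbC, hbμ, hzb⟩ := hx.mem z ((hymem z).1 hz).1
      subst hzb
      exact ⟨b, hb, hbC.2.2 σ (hσa.trans_le (hya b hz)), hbμ, rfl⟩
    · obtain ⟨g, hg⟩ := hx.few
      exact ⟨g, fun b hb => hg b ((hymem _).1 hb).1⟩
  have hxK : x ⊆ K.ord.toZFSet := by
    intro z hz
    obtain ⟨b, hb, -, -, rfl⟩ := hx.mem z hz
    exact toZFSet_mem_toZFSet_iff.2 hb
  have hyK : y ⊆ K.ord.toZFSet := fun z hz => hxK ((hymem z).1 hz).1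
  have hsy : (x ∩ a.toZFSet) ∪ y = x := by
    ext z
    rw [ZFSet.mem_union, ZFSet.mem_inter, hymem]
    constructor
    · rintro (h | h)
      · exact h.1
      · exact h.1
    · intro h
      by_cases hz : z ∈ a.toZFSet
      · exact Or.inl ⟨h, hz⟩
      · exact Or.inr ⟨h, hz⟩
  -- the sections agree below `a`
  have hsec : ∀ c < a, c ∈ sec (Fs K.ord G (x ∩ a.toZFSet)) y ↔ c ∈ sec G x := by
    intro c hc
    have hcK : c < K.ord := hc.trans ha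
    show ZFSet.pair y c.toZFSet ∈ Fs K.ord G (x ∩ a.toZFSet) ↔ ZFSet.pair x c.toZFSet ∈ G
    unfold Fs
    rw [ZFSet.mem_sep]
    constructor
    · rintro ⟨-, y', a', he, -, hG'⟩
      obtain ⟨e1, e2⟩ := ZFSet.pair_injective he
      rw [← e1, ← e2, hsy] at hG'
      exact hG'
    · intro h
      refine ⟨?_, y, c.toZFSet, rfl, fun b hb => ?_, ?_⟩
      · rw [ZFSet.pair_mem_prod, ZFSet.mem_powerset]
        exact ⟨hyK, toZFSet_mem_toZFSet_iff.2 hcK⟩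
      · obtain ⟨b', -, -, -, rfl⟩ := hx.mem b ((hymem b).1 hb).1
        exact toZFSet_mem_toZFSet_iff.2 (hc.trans_le (hya b' hb))
      · rw [hsy]
        exact h
  -- the union of `w`
  have hwmem : ∀ z, z ∈ x ∩ (succ a).toZFSet ↔ z = a.toZFSet ∨ (z ∈ x ∧ z ∈ a.toZFSet) := by
    intro z
    rw [ZFSet.mem_inter]
    constructor
    · rintro ⟨h6, h7⟩
      obtain ⟨b, hb, rfl⟩ := mem_toZFSet_iff.1 h7
      rcases (lt_succ_iff.1 hb).lt_or_eq with h | h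
      · exact Or.inr ⟨h6, toZFSet_mem_toZFSet_iff.2 h⟩
      · exact Or.inl (by rw [h])
    · rintro (h | ⟨h6, h7⟩)
      · rw [h]
        exact ⟨hax, toZFSet_mem_toZFSet_iff.2 (lt_succ a)⟩
      · obtain ⟨b, hb, rfl⟩ := mem_toZFSet_iff.1 h7
        exact ⟨h6, toZFSet_mem_toZFSet_iff.2 (hb.trans (lt_succ a))⟩
  have hwU : a.toZFSet = (ZFSet.sUnion (x ∩ (succ a).toZFSet) : ZFSet.{u}) := by
    ext z
    rw [ZFSet.mem_sUnion]
    constructor
    · intro hz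
      exact ⟨a.toZFSet, (hwmem _).2 (Or.inl rfl), hz⟩
    · rintro ⟨t, ht, hzt⟩
      rcases (hwmem t).1 ht with h | h
      · rwa [h] at hzt
      · obtain ⟨b, hb, rfl⟩ := mem_toZFSet_iff.1 h.2
        obtain ⟨c, hc, rfl⟩ := mem_toZFSet_iff.1 hzt
        exact toZFSet_mem_toZFSet_iff.2 (hc.trans hb)
  have hwa : (x ∩ (succ a).toZFSet) ∩ a.toZFSet = x ∩ a.toZFSet := by
    ext z
    rw [ZFSet.mem_inter, hwmem, ZFSet.mem_inter]
    constructor
    · rintro ⟨h | h, h7⟩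
      · rw [h] at h7
        exact absurd (toZFSet_mem_toZFSet_iff.1 h7) (lt_irrefl a)
      · exact h
    · intro h
      exact ⟨Or.inr h, h.2⟩
  have hwOD : OD (x ∩ (succ a).toZFSet) := by
    refine h5 (succ a) _ (fun z hz => (ZFSet.mem_inter.1 hz).2) ?_
    refine (hafin.insert a).subset fun b hb => ?_
    have hb' : b.toZFSet ∈ x ∩ (succ a).toZFSet := hb
    rcases (hwmem _).1 hb' with h | h
    · exact Or.inl (toZFSet_injective h)
    · exact Or.inr ⟨h.1, toZFSet_mem_toZFSet_iff.1 h.2⟩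
  have hYa : os a (sec G x) ⊆ a.toZFSet := by
    intro z hz
    obtain ⟨b, hb, -, rfl⟩ := mem_os.1 hz
    exact toZFSet_mem_toZFSet_iff.2 hb
  have haK : a.toZFSet ⊆ K.ord.toZFSet := by
    intro z hz
    obtain ⟨b, hb, rfl⟩ := mem_toZFSet_iff.1 hz
    exact toZFSet_mem_toZFSet_iff.2 (hb.trans ha)
  unfold DD
  rw [ZFSet.mem_sep]
  refine ⟨?_, _, _, rfl, hwOD, a, ha, hlim, hwU, hYa, fun n hn => ?_⟩
  · rw [ZFSet.pair_mem_prod, ZFSet.mem_powerset, ZFSet.mem_powerset]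
    exact ⟨fun z hz => hxK (ZFSet.mem_inter.1 hz).1, fun z hz => haK (hYa hz)⟩
  · rw [hwa]
    have h6 := hCx σ hsOD y hysm n (fun b hb => hn.trans_le (hya b hb)) (hn.trans ha)
    rw [hσ] at h6
    intro E hE
    obtain ⟨x', hx', hx2⟩ := h6 E hE
    refine ⟨x', hx', fun c hc => ?_⟩
    rw [hx2 c hc, hsec c (hc.trans hn)]
    show _ ↔ c.toZFSet ∈ os a (sec G x)
    rw [ord_mem_os]
    exact ⟨fun h => ⟨hc.trans hn, h⟩, fun h => h.2⟩

end Pool.Agent.H96.PRP
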